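import Pool.Graph.R_seed8.H720R3.Conc

/-!
# Counting the blocks with given contents
-/

set_option autoImplicit false

namespace Pool.Agent.H700.VB

open Finset Pool.Agent.H720R3

variable {E : Type} [Fintype E] [DecidableEq E]

theorem fib (C P : Finset E) (hP : P ⊆ C) (𝓖 : Finset (Finset E)) :
    #(univ.filter fun X : Finset E => (X \ C) ∪ P ∈ 𝓖) =
      #(𝓖.filter fun A => A ∩ C = P) * 2 ^ #C := by
  rw [← card_powerset, ← card_product]
  refine card_nbij' (fun X => ((X \ C) ∪ P, X ∩ C)) (fun q => (q.1 \ C) ∪ q.2) ?_ ?_ ?_ ?_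
  · intro X hX
    rw [mem_coe, mem_filter] at hX
    rw [mem_coe, mem_product, mem_filter, mem_powerset]
    refine ⟨⟨hX.2, ?_⟩, inter_subset_right⟩
    ext x
    have := @hP x
    simp only [mem_inter, mem_union, mem_sdiff]
    tauto
  · intro q hq
    rw [mem_coe, mem_product, mem_filter, mem_powerset] at hq
    rw [mem_coe, mem_filter]
    refine ⟨mem_univ _, ?_⟩
    have e1 : (q.1 \ C ∪ q.2) \ C ∪ P = q.1 := by
      conv_rhs => rw [← sdiff_union_inter q.1 C, hq.1.2]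
      congr 1
      ext x
      have := @hq.2 x
      simp only [mem_union, mem_sdiff]
      tauto
    rw [e1]
    exact hq.1.1
  · intro X hX
    ext x
    have := @hP x
    simp only [mem_inter, mem_union, mem_sdiff]
    tauto
  · intro q hq
    rw [mem_coe, mem_product, mem_filter, mem_powerset] at hq
    have e1 : (q.1 \ C ∪ q.2) \ C ∪ P = q.1 := by
      conv_rhs => rw [← sdiff_union_inter q.1 C, hq.1.2]
      congr 1
      ext x
      have := @hq.2 x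
      simp only [mem_union, mem_sdiff]
      tauto
    refine Prod.ext e1 ?_
    ext x
    have := @hq.2 x
    simp only [mem_inter, mem_union, mem_sdiff]
    tauto

/-- the number of the members of `𝓕` with given contents in a block -/
theorem conc_up {M c : ℕ} (C P : Fin M → Finset E) (hP : ∀ j, P j ⊆ C j)
    (hc : ∀ j, #(C j) = c) (hdis : ∀ j k, j ≠ k → Disjoint (C j) (C k)) (𝓕 : Finset (Finset E)) :
    ∑ j, (#(𝓕.filter fun A => A ∩ C j = P j) : ℝ) ≤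
      (M : ℝ) / 2 ^ c * #𝓕 + Real.sqrt ((M : ℝ) / 2 ^ c) * 2 ^ Fintype.card E := by
  have h1 : ∑ A ∈ 𝓕, cnt C P A = ∑ j, (#(𝓕.filter fun A => A ∩ C j = P j) : ℝ) := by
    unfold cnt
    rw [sum_comm]
    exact sum_congr rfl fun j _ => by rw [Finset.sum_boole]
  have h2 := conc C P hP hc hdis 𝓕ᶜ
  have h3 := sum_cnt C P hP hc
  have h4 : ∑ A ∈ 𝓕, cnt C P A + ∑ A ∈ 𝓕ᶜ, cnt C P A = ∑ A : Finset E, cnt C P A :=
    sum_add_sum_compl 𝓕 _
  have h5 : (#𝓕 : ℝ) + #𝓕ᶜ = 2 ^ Fintype.card E := by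
    have := card_add_card_compl 𝓕
    rw [Fintype.card_finset] at this
    exact_mod_cast this
  rw [← h1]
  have h6 : (M : ℝ) / 2 ^ c * #𝓕 + (M : ℝ) / 2 ^ c * #𝓕ᶜ =
      (M : ℝ) / 2 ^ c * 2 ^ Fintype.card E := by rw [← h5]; ring
  linarith

/-- The main inequality: contents `P j X` of the blocks `C j` which are nearly equivalent for `𝓕`, such that
`𝓢` contains at most the proportion `τ` of them whatever the contents of the other cells are. -/
theorem slice {M c : ℕ} {Ξ : Type} [Fintype Ξ] (C : Fin M → Finset E)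
    (P : Fin M → Ξ → Finset E) (hP : ∀ j X, P j X ⊆ C j)
    (hc : ∀ j, #(C j) = c) (hdis : ∀ j k, j ≠ k → Disjoint (C j) (C k))
    (𝓕 𝓢 : Finset (Finset E)) (hSF : 𝓢 ⊆ 𝓕) (X₀ : Ξ) (τ ε : ℝ) (hτ : 0 ≤ τ)
    (hclose : ∀ j X, (#(univ.filter fun Y : Finset E =>
      ¬ ((Y \ C j) ∪ P j X₀ ∈ 𝓕 ↔ (Y \ C j) ∪ P j X ∈ 𝓕)) : ℝ) ≤ ε * 2 ^ Fintype.card E)
    (hsec : ∀ j (Y : Finset E), (#(univ.filter fun X : Ξ => (Y \ C j) ∪ P j X ∈ 𝓢) : ℝ) ≤
      τ * Fintype.card Ξ) :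
    (Fintype.card Ξ : ℝ) * ((M : ℝ) / 2 ^ c * #𝓢 -
      Real.sqrt ((M : ℝ) / 2 ^ c) * 2 ^ Fintype.card E) ≤
      τ * Fintype.card Ξ * ((M : ℝ) / 2 ^ c * #𝓕 +
        Real.sqrt ((M : ℝ) / 2 ^ c) * 2 ^ Fintype.card E +
        (M : ℝ) / 2 ^ c * (Fintype.card Ξ * (ε * 2 ^ Fintype.card E))) := by
  classical
  set K : ℝ := (Fintype.card Ξ : ℝ) with hK
  set W : ℝ := 2 ^ Fintype.card E with hW
  set μ : ℝ := (M : ℝ) / 2 ^ c with hμ
  have hK0 : 0 ≤ K := Nat.cast_nonneg _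
  have hp : (0 : ℝ) < 2 ^ c := by positivity
  have hlow : K * (μ * #𝓢 - Real.sqrt μ * W) ≤
      ∑ j, ∑ X : Ξ, (#(𝓢.filter fun A => A ∩ C j = P j X) : ℝ) := by
    rw [sum_comm]
    calc K * (μ * #𝓢 - Real.sqrt μ * W) = ∑ _X : Ξ, (μ * #𝓢 - Real.sqrt μ * W) := by
          rw [sum_const, card_univ, nsmul_eq_mul]
      _ ≤ _ := by
          refine sum_le_sum fun X _ => ?_
          have h1 := conc C (fun j => P j X) (fun j => hP j X) hc hdis 𝓢
          refine h1.trans (le_of_eq ?_)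
          unfold cnt
          rw [sum_comm]
          exact sum_congr rfl fun j _ => by rw [Finset.sum_boole]
  have hj : ∀ j, ∑ X : Ξ, (#(𝓢.filter fun A => A ∩ C j = P j X) : ℝ) ≤
      τ * K * (#(𝓕.filter fun A => A ∩ C j = P j X₀) + K * (ε * W) / 2 ^ c) := by
    intro j
    have h1 : (∑ X : Ξ, (#(𝓢.filter fun A => A ∩ C j = P j X) : ℝ)) * 2 ^ c =
        ∑ Y : Finset E, (#(univ.filter fun X : Ξ => (Y \ C j) ∪ P j X ∈ 𝓢) : ℝ) := by
      have h2 : ∀ X : Ξ, (#(𝓢.filter fun A => A ∩ C j = P j X) : ℝ) * 2 ^ c =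
          ∑ Y : Finset E, if (Y \ C j) ∪ P j X ∈ 𝓢 then (1 : ℝ) else 0 := by
        intro X
        rw [Finset.sum_boole, fib (C j) (P j X) (hP j X), hc]
        push_cast
        rfl
      rw [sum_mul, sum_congr rfl fun X _ => h2 X, sum_comm]
      exact sum_congr rfl fun Y _ => by rw [Finset.sum_boole]
    have h3 : ∀ Y : Finset E, (#(univ.filter fun X : Ξ => (Y \ C j) ∪ P j X ∈ 𝓢) : ℝ) ≤
        τ * K * ((if (Y \ C j) ∪ P j X₀ ∈ 𝓕 then (1 : ℝ) else 0) +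
          ∑ X : Ξ, if ¬ ((Y \ C j) ∪ P j X₀ ∈ 𝓕 ↔ (Y \ C j) ∪ P j X ∈ 𝓕) then (1 : ℝ) else 0) := by
      intro Y
      have hnn : 0 ≤ ∑ X : Ξ,
          if ¬ ((Y \ C j) ∪ P j X₀ ∈ 𝓕 ↔ (Y \ C j) ∪ P j X ∈ 𝓕) then (1 : ℝ) else 0 :=
        sum_nonneg fun X _ => by split_ifs <;> norm_num
      by_cases hex : ∃ X, (Y \ C j) ∪ P j X ∈ 𝓕
      · have h4 : (1 : ℝ) ≤ (if (Y \ C j) ∪ P j X₀ ∈ 𝓕 then (1 : ℝ) else 0) +
            ∑ X : Ξ, if ¬ ((Y \ C j) ∪ P j X₀ ∈ 𝓕 ↔ (Y \ C j) ∪ P j X ∈ 𝓕) then (1 : ℝ)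
              else 0 := by
          by_cases h0 : (Y \ C j) ∪ P j X₀ ∈ 𝓕
          · rw [if_pos h0]
            linarith
          · obtain ⟨X, hX⟩ := hex
            have h5 := single_le_sum (f := fun X : Ξ =>
              if ¬ ((Y \ C j) ∪ P j X₀ ∈ 𝓕 ↔ (Y \ C j) ∪ P j X ∈ 𝓕) then (1 : ℝ) else 0)
              (fun X _ => by split_ifs <;> norm_num) (mem_univ X)
            rw [if_pos (show ¬ ((Y \ C j) ∪ P j X₀ ∈ 𝓕 ↔ (Y \ C j) ∪ P j X ∈ 𝓕) from
              fun h => h0 (h.2 hX))] at h5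
            rw [if_neg h0]
            linarith
        calc (#(univ.filter fun X : Ξ => (Y \ C j) ∪ P j X ∈ 𝓢) : ℝ) ≤ τ * K := hsec j Y
          _ = τ * K * 1 := (mul_one _).symm
          _ ≤ _ := mul_le_mul_of_nonneg_left h4 (mul_nonneg hτ hK0)
      · have h4 : (univ.filter fun X : Ξ => (Y \ C j) ∪ P j X ∈ 𝓢) = ∅ := by
          rw [filter_eq_empty_iff]
          intro X _ hX
          exact hex ⟨X, hSF hX⟩
        rw [h4, card_empty, Nat.cast_zero]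
        refine mul_nonneg (mul_nonneg hτ hK0) (add_nonneg ?_ hnn)
        split_ifs <;> norm_num
    have h5 := (sum_le_sum fun (Y : Finset E) (_ : Y ∈ univ) => h3 Y)
    rw [← h1, ← mul_sum, sum_add_distrib, Finset.sum_boole, sum_comm] at h5
    have h6 : ∑ X : Ξ, ∑ Y : Finset E,
        (if ¬ ((Y \ C j) ∪ P j X₀ ∈ 𝓕 ↔ (Y \ C j) ∪ P j X ∈ 𝓕) then (1 : ℝ) else 0) ≤
        K * (ε * W) := by
      calc _ ≤ ∑ _X : Ξ, ε * W := sum_le_sum fun X _ => by
            rw [Finset.sum_boole]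
            exact hclose j X
        _ = _ := by rw [sum_const, card_univ, nsmul_eq_mul]
    have h7 : ((#(univ.filter fun Y : Finset E => (Y \ C j) ∪ P j X₀ ∈ 𝓕) : ℕ) : ℝ) =
        #(𝓕.filter fun A => A ∩ C j = P j X₀) * 2 ^ c := by
      rw [fib (C j) (P j X₀) (hP j X₀), hc]
      push_cast
      rfl
    rw [h7] at h5
    have h8 : (∑ X : Ξ, (#(𝓢.filter fun A => A ∩ C j = P j X) : ℝ)) * 2 ^ c ≤
        τ * K * (#(𝓕.filter fun A => A ∩ C j = P j X₀) * 2 ^ c + K * (ε * W)) :=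
      h5.trans (mul_le_mul_of_nonneg_left (add_le_add_right h6 _) (mul_nonneg hτ hK0))
    rw [← le_div_iff₀ hp] at h8
    refine h8.trans (le_of_eq ?_)
    field_simp
  have hup := conc_up C (fun j => P j X₀) (fun j => hP j X₀) hc hdis 𝓕
  calc K * (μ * #𝓢 - Real.sqrt μ * W)
      ≤ ∑ j, ∑ X : Ξ, (#(𝓢.filter fun A => A ∩ C j = P j X) : ℝ) := hlow
    _ ≤ ∑ j, τ * K * (#(𝓕.filter fun A => A ∩ C j = P j X₀) + K * (ε * W) / 2 ^ c) :=
        sum_le_sum fun j _ => hj j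
    _ = τ * K * (∑ j, (#(𝓕.filter fun A => A ∩ C j = P j X₀) : ℝ) + μ * (K * (ε * W))) := by
        rw [← mul_sum, sum_add_distrib, sum_const, card_univ, Fintype.card_fin, nsmul_eq_mul, hμ]
        ring
    _ ≤ _ := by
        refine mul_le_mul_of_nonneg_left ?_ (mul_nonneg hτ hK0)
        linarith

end Pool.Agent.H700.VB
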