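import Pool.Agent.H700.VB.Pair
import Pool.Agent.H700.VB.Slice
import Pool.Graph.R_seed8.Y613.PJ.Main

/-!
# Families whose sections at blocks have bounded VC dimension
-/

set_option autoImplicit false

namespace Pool.Agent.H700.VB

open Finset Pool.Agent.R533.VC Pool.Agent.Y613.PJ

section sums

variable {E : Type} [Fintype E] [DecidableEq E]

theorem slices_sum (U : Finset E) (𝓖 : Finset (Finset E)) :
    ∑ ρ ∈ Uᶜ.powerset, #(univ.filter fun X : Finset E => X ∩ U ∪ ρ ∈ 𝓖) = #𝓖 * 2 ^ #Uᶜ := by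
  have h1 : ∑ ρ ∈ Uᶜ.powerset, #(univ.filter fun X : Finset E => X ∩ U ∪ ρ ∈ 𝓖) =
      #((Uᶜ.powerset ×ˢ (univ : Finset (Finset E))).filter fun q => q.2 ∩ U ∪ q.1 ∈ 𝓖) := by
    rw [card_filter, sum_product]
    exact sum_congr rfl fun ρ _ => by rw [card_filter]
  rw [h1, ← card_powerset, ← card_product]
  have key : ∀ A T : Finset E, T ⊆ Uᶜ → (A ∩ U ∪ T) ∩ U ∪ A \ U = A := by
    intro A T hT
    ext x
    have := @hT x
    simp only [mem_inter, mem_union, mem_sdiff, mem_compl] at this ⊢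
    tauto
  refine card_nbij' (fun q => (q.2 ∩ U ∪ q.1, q.2 \ U)) (fun q => (q.1 \ U, q.1 ∩ U ∪ q.2))
    ?_ ?_ ?_ ?_
  · intro q hq
    rw [mem_coe, mem_filter, mem_product, mem_powerset] at hq
    rw [mem_coe, mem_product, mem_powerset]
    refine ⟨hq.2, ?_⟩
    intro x hx
    rw [mem_compl]
    exact (mem_sdiff.1 hx).2
  · intro q hq
    rw [mem_coe, mem_product, mem_powerset] at hq
    rw [mem_coe, mem_filter, mem_product, mem_powerset]
    refine ⟨⟨?_, mem_univ _⟩, ?_⟩
    · intro x hx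
      rw [mem_compl]
      exact (mem_sdiff.1 hx).2
    · show (q.1 ∩ U ∪ q.2) ∩ U ∪ q.1 \ U ∈ 𝓖
      rw [key _ _ hq.2]
      exact hq.1
  · intro q hq
    rw [mem_coe, mem_filter, mem_product, mem_powerset] at hq
    refine Prod.ext ?_ ?_
    · ext x
      have := @hq.1.1 x
      simp only [mem_inter, mem_union, mem_sdiff, mem_compl] at this ⊢
      tauto
    · ext x
      have := @hq.1.1 x
      simp only [mem_inter, mem_union, mem_sdiff, mem_compl] at this ⊢
      tauto
  · intro q hq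
    rw [mem_coe, mem_product, mem_powerset] at hq
    refine Prod.ext (key _ _ hq.2) ?_
    ext x
    have := @hq.2 x
    simp only [mem_inter, mem_union, mem_sdiff, mem_compl] at this ⊢
    tauto

omit [Fintype E] in
theorem set1 (X C U ρ P : Finset E) (hP : P ⊆ U) :
    P ∪ (X \ C) ∩ U ∪ ρ = (X \ C ∪ P) ∩ U ∪ ρ := by
  ext x
  have := @hP x
  simp only [mem_union, mem_inter, mem_sdiff]
  tauto

omit [Fintype E] in
theorem set2 (X C U ρ P Q : Finset E) (hQ : Q ⊆ U) :
    (X \ C ∪ P) ∩ U ∪ ρ ∪ Q = (X \ C ∪ (P ∪ Q)) ∩ U ∪ ρ := by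
  ext x
  have := @hQ x
  simp only [mem_union, mem_inter, mem_sdiff]
  tauto

end sums

/-- The sections of `F` at the block `B` have VC dimension at most `D`, if the cells outside of `U` are
fixed: if `x 1, ..., x n ⊆ B` are shattered by the sections `{x ⊆ B | x ∪ Y ∪ ρ ∈ F}`, `Y ⊆ U \ B`, for
some `ρ` disjoint from `U`, then `n ≤ D`. -/
def SectionsVC {E : Type} [DecidableEq E] (D : ℕ) (B U : Finset E) (F : Finset (Finset E)) : Prop :=
  ∀ (ρ : Finset E), Disjoint ρ U → ∀ (n : ℕ) (x : Fin n → Finset E), (∀ i, x i ⊆ B) →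
    (∀ T : Fin n → Bool, ∃ Y ⊆ U \ B, ∀ i, (x i ∪ Y ∪ ρ ∈ F ↔ T i = true)) → n ≤ D

section blocks

variable {d N l : ℕ}

open Classical in
/-- transport of a set of tuples -/
noncomputable def tra (e : Fin l → Fin N) (a : Set (Fin d → Fin l)) : Finset (Fin d → Fin N) :=
  univ.filter fun c => ∃ x ∈ a, (fun i => e (x i)) = c

theorem mem_tra (e : Fin l → Fin N) (a : Set (Fin d → Fin l)) (c : Fin d → Fin N) :
    c ∈ tra e a ↔ ∃ x ∈ a, (fun i => e (x i)) = c := by
  classical
  unfold tra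
  rw [mem_filter]
  exact ⟨fun h => h.2, fun h => ⟨mem_univ _, h⟩⟩

theorem tra_union (e : Fin l → Fin N) (a b : Set (Fin d → Fin l)) :
    tra e (a ∪ b) = tra e a ∪ tra e b := by
  ext c
  rw [mem_union, mem_tra, mem_tra, mem_tra]
  constructor
  · rintro ⟨x, hx | hx, h⟩
    · exact Or.inl ⟨x, hx, h⟩
    · exact Or.inr ⟨x, hx, h⟩
  · rintro (⟨x, hx, h⟩ | ⟨x, hx, h⟩)
    · exact ⟨x, Or.inl hx, h⟩
    · exact ⟨x, Or.inr hx, h⟩

theorem tra_sub (e : Fin l → Fin N) (I : Finset (Fin N)) (he : ∀ i, e i ∈ I)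
    (a : Set (Fin d → Fin l)) : tra e a ⊆ cube d I := by
  intro c hc
  rw [mem_tra] at hc
  obtain ⟨x, -, rfl⟩ := hc
  rw [cube, Fintype.mem_piFinset]
  exact fun i => he _

theorem tra_disj (e : Fin l → Fin N) (he : Function.Injective e) (a b : Set (Fin d → Fin l))
    (h : Disjoint a b) : Disjoint (tra e a) (tra e b) := by
  rw [Finset.disjoint_left]
  intro c hc hc'
  rw [mem_tra] at hc hc'
  obtain ⟨x, hx, rfl⟩ := hc
  obtain ⟨y, hy, hxy⟩ := hc'
  have : y = x := funext fun i => he (congrFun hxy i)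
  subst this
  exact Set.disjoint_left.1 h hx hy

open Classical in
theorem tra_cube (e : Fin l → Fin N) (γ : Set (Fin l)) :
    tra e (cubeSet d γ) = cube d ((univ.filter fun i : Fin l => i ∈ γ).image e) := by
  ext c
  rw [mem_tra, cube, Fintype.mem_piFinset]
  constructor
  · rintro ⟨x, hx, rfl⟩ i
    exact mem_image_of_mem _ (mem_filter.2 ⟨mem_univ _, hx i⟩)
  · intro h
    choose x hx hxc using fun i => mem_image.1 (h i)
    exact ⟨x, fun i => (mem_filter.1 (hx i)).2, funext hxc⟩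

theorem exists_cube (e : Fin l → Fin N) (γ : Set (Fin l)) (h : γ.Nonempty) :
    ∃ Γ : Finset (Fin N), tra e (cubeSet d γ) = cube d Γ ∧ Γ.Nonempty := by
  classical
  refine ⟨_, tra_cube e γ, ?_⟩
  obtain ⟨b, hb⟩ := h
  exact ⟨e b, mem_image_of_mem _ (mem_filter.2 ⟨mem_univ _, hb⟩)⟩

end blocks

theorem coe_cube {d N : ℕ} (γ : Finset (Fin N)) :
    ((cube d γ : Finset (Fin d → Fin N)) : Set (Fin d → Fin N)) = cubeSet d (γ : Set (Fin N)) := by
  ext x
  simp [cube, cubeSet]

/-- **Main theorem.** If the families of subsets of `[n] ^ d` which are not good have density at most `τ`, then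
the families `S ⊆ F` which are not good have relative density at most `τ` in `F`, up to `ε`, for all `F` which
are Boolean combinations of `r` families whose sections at blocks have bounded VC dimension. -/
theorem main (d : ℕ) (hd : 1 ≤ d) (n : ℕ) (τ : ℝ) (hτ0 : 0 ≤ τ)
    (hτ : ∀ T : Finset (Finset (Fin d → Fin n)), τ * 2 ^ (n ^ d) < #T → Good T)
    (D r : ℕ) (ε : ℝ) (hε : 0 < ε) :
    ∃ (l M : ℕ), ∀ (N : ℕ) (I : Fin M → Finset (Fin N)),
      (∀ k, #(I k) = l) → (∀ j k, j ≠ k → Disjoint (I j) (I k)) →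
      ∀ (G : Fin r → Finset (Finset (Fin d → Fin N))) (g : (Fin r → Bool) → Bool)
        (F S : Finset (Finset (Fin d → Fin N))),
        (∀ i k, SectionsVC D (cube d (I k)) (univ.biUnion fun k => cube d (I k)) (G i)) →
        (∀ A, A ∈ F ↔ g (fun i => decide (A ∈ G i)) = true) → S ⊆ F → ¬ Good S →
        (#S : ℝ) ≤ τ * #F + ε * 2 ^ (N ^ d) := by
  classical
  -- the parameters
  set K : ℝ := 2 ^ (n ^ d) with hK
  have hK0 : 0 < K := by positivity
  obtain ⟨e₀, he₀⟩ := exists_nat_ge (4 * τ * K / ε)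
  set e : ℕ := e₀ + 1 with he
  have he1 : 1 ≤ e := by omega
  have he0 : (0 : ℝ) < e := by exact_mod_cast he1
  have heε : τ * K * (2 / e) ≤ ε / 2 := by
    have h1 : 4 * τ * K / ε ≤ (e : ℝ) := by
      rw [he]; push_cast; linarith
    rw [div_le_iff₀ hε] at h1
    rw [mul_div_assoc', div_le_iff₀ he0]
    linarith
  obtain ⟨l, hl⟩ := close_copy d hd n (∑ _i : Fin r, 2 ^ (D + 1)) e he1
  set c : ℕ := l ^ d with hc
  obtain ⟨M, hM⟩ := exists_nat_gt ((2 * (1 + τ) / ε) ^ 2 * 2 ^ c)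
  refine ⟨l, M, ?_⟩
  intro N I hI hdis G g F S hG hF hSF hgood
  set μ : ℝ := (M : ℝ) / 2 ^ c with hμ
  have hμ1 : (2 * (1 + τ) / ε) ^ 2 < μ := by rw [hμ, lt_div_iff₀ (by positivity)]; exact hM
  have hμ0 : 0 < μ := lt_of_le_of_lt (sq_nonneg _) hμ1
  set W : ℝ := 2 ^ Fintype.card (Fin d → Fin N) with hW
  have hWe : W = (2 : ℝ) ^ (N ^ d) := by rw [hW]; simp
  have hW0 : 0 < W := by positivity
  rw [← hWe]
  set C : Fin M → Finset (Fin d → Fin N) := fun k => cube d (I k) with hC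
  set U : Finset (Fin d → Fin N) := univ.biUnion fun k => cube d (I k) with hU
  have hCU : ∀ k, C k ⊆ U := fun k => subset_biUnion_of_mem (fun k => cube d (I k)) (mem_univ k)
  have hCc : ∀ k, #(C k) = c := by
    intro k
    show #(cube d (I k)) = c
    rw [cube, Fintype.card_piFinset]
    simp [hI, hc]
  have hCd : ∀ j k, j ≠ k → Disjoint (C j) (C k) := by
    intro j k hjk
    rw [Finset.disjoint_left]
    intro x hx hx'
    have h1 : x ∈ cube d (I j) := hx
    have h2 : x ∈ cube d (I k) := hx'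
    rw [cube, Fintype.mem_piFinset] at h1 h2
    exact Finset.disjoint_left.1 (hdis j k hjk) (h1 ⟨0, hd⟩) (h2 ⟨0, hd⟩)
  let em : Fin M → Fin l → Fin N := fun k => (I k).orderEmbOfFin (hI k)
  have hem : ∀ k i, em k i ∈ I k := fun k i => orderEmbOfFin_mem _ _ _
  have hemi : ∀ k, Function.Injective (em k) := fun k => ((I k).orderEmbOfFin (hI k)).injective
  have hcard : (Fintype.card (Finset (Fin d → Fin n)) : ℝ) = K := by
    rw [Fintype.card_finset, hK]
    simp
  -- one slice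
  have hslice : ∀ ρ ∈ Uᶜ.powerset,
      K * (μ * #(univ.filter fun X : Finset (Fin d → Fin N) => X ∩ U ∪ ρ ∈ S) - Real.sqrt μ * W) ≤
        τ * K * (μ * #(univ.filter fun X : Finset (Fin d → Fin N) => X ∩ U ∪ ρ ∈ F) +
          Real.sqrt μ * W + μ * (K * (2 / e * W))) := by
    intro ρ hρ
    rw [mem_powerset] at hρ
    have hρU : Disjoint ρ U := by
      rw [Finset.disjoint_left]
      intro x hx hx'
      exact (mem_compl.1 (hρ hx)) hx'
    -- the copies
    have hpair : ∀ k, ∃ (a : Set (Fin d → Fin l)) (q : Fin l → Option (Fin n)),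
        (∀ j, ∃ b, q b = some j) ∧ ∀ Z Z' : Set (Fin d → Fin n),
        e * dif (fun (X : Finset (Fin d → Fin N)) (a : Set (Fin d → Fin l)) =>
          decide ((X \ C k ∪ tra (em k) a) ∩ U ∪ ρ ∈ F)) univ (cop a q Z) (cop a q Z') ≤
          2 * #(univ : Finset (Finset (Fin d → Fin N))) := by
      intro k
      refine hl _ univ _ ⟨∅, mem_univ _⟩ ?_
      have hgr := growth_comp r (fun (i : Fin r) (X : Finset (Fin d → Fin N))
        (a : Set (Fin d → Fin l)) => decide ((X \ C k ∪ tra (em k) a) ∩ U ∪ ρ ∈ G i))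
        (fun _ => 2 ^ (D + 1)) (fun i => growth_of_vc _ _ (vc_dual _ D ?_)) (fun _ => g)
      · have e1 : (fun (X : Finset (Fin d → Fin N)) (a : Set (Fin d → Fin l)) =>
            decide ((X \ C k ∪ tra (em k) a) ∩ U ∪ ρ ∈ F)) =
            fun (X : Finset (Fin d → Fin N)) (a : Set (Fin d → Fin l)) =>
              g fun i => decide ((X \ C k ∪ tra (em k) a) ∩ U ∪ ρ ∈ G i) := by
          funext X a
          rw [Bool.eq_iff_iff, decide_eq_true_iff]
          exact hF _
        rw [e1]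
        exact hgr
      · intro n y hy
        refine hG i k ρ hρU n (fun j => tra (em k) (y j)) (fun j => tra_sub _ _ (hem k) _) ?_
        intro T
        obtain ⟨X, hX⟩ := hy T
        refine ⟨(X \ C k) ∩ U, ?_, fun j => ?_⟩
        · intro x hx
          rw [mem_inter, mem_sdiff] at hx
          exact mem_sdiff.2 ⟨hx.2, hx.1.2⟩
        · have h1 := hX j
          have h2 : tra (em k) (y j) ∪ (X \ C k) ∩ U ∪ ρ =
              (X \ C k ∪ tra (em k) (y j)) ∩ U ∪ ρ :=
            set1 _ _ _ _ _ ((tra_sub (em k) (I k) (hem k) (y j)).trans (hCU k))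
          rw [h2, ← h1, decide_eq_true_iff]
    choose a q hq hclose using hpair
    have hres := slice (Ξ := Finset (Fin d → Fin n)) C
      (fun k X => tra (em k) (cop (a k) (q k) (X : Set (Fin d → Fin n))))
      (fun k X => tra_sub _ _ (hem k) _) hCc hCd
      (univ.filter fun X : Finset (Fin d → Fin N) => X ∩ U ∪ ρ ∈ F)
      (univ.filter fun X : Finset (Fin d → Fin N) => X ∩ U ∪ ρ ∈ S)
      (fun X hX => by
        rw [mem_filter] at hX ⊢
        exact ⟨hX.1, hSF hX.2⟩) ∅ τ (2 / e) hτ0 ?_ ?_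
    · rw [hcard] at hres
      exact hres
    · intro k X
      have h1 := hclose k ((∅ : Finset (Fin d → Fin n)) : Set (Fin d → Fin n)) (X : Set (Fin d → Fin n))
      rw [card_univ, Fintype.card_finset] at h1
      have h2 : (univ.filter fun Y : Finset (Fin d → Fin N) =>
          ¬ ((Y \ C k) ∪ tra (em k) (cop (a k) (q k)
              ((∅ : Finset (Fin d → Fin n)) : Set (Fin d → Fin n))) ∈
              (univ.filter fun X : Finset (Fin d → Fin N) => X ∩ U ∪ ρ ∈ F) ↔
            (Y \ C k) ∪ tra (em k) (cop (a k) (q k) (X : Set (Fin d → Fin n))) ∈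
              (univ.filter fun X : Finset (Fin d → Fin N) => X ∩ U ∪ ρ ∈ F))) =
          univ.filter fun Y : Finset (Fin d → Fin N) =>
            decide ((Y \ C k ∪ tra (em k) (cop (a k) (q k)
              ((∅ : Finset (Fin d → Fin n)) : Set (Fin d → Fin n)))) ∩ U ∪ ρ ∈ F) ≠
              decide ((Y \ C k ∪ tra (em k) (cop (a k) (q k) (X : Set (Fin d → Fin n)))) ∩ U ∪ ρ ∈
                F) := by
        ext Y
        simp only [mem_filter, mem_univ, true_and, ne_eq, decide_eq_decide]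
      rw [h2]
      unfold dif at h1
      rw [div_mul_eq_mul_div, le_div_iff₀ he0, mul_comm]
      exact_mod_cast h1
    · intro k Y
      rw [hcard, hK]
      by_contra hcon
      rw [not_le] at hcon
      obtain ⟨A, hA, γ, hγ, hdisj, hA'⟩ := hτ _ hcon
      rw [mem_filter, mem_filter] at hA hA'
      have h1 := hA.2.2
      have h2 := hA'.2.2
      rw [coe_union, coe_cube, cop_union] at h2
      set γ' : Set (Fin l) := {b | ∃ j ∈ (γ : Set (Fin n)), q k b = some j} with hγ'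
      have hdisj' : Disjoint (cop (a k) (q k) (A : Set (Fin d → Fin n))) (cubeSet d γ') := by
        refine cop_disj _ _ _ _ ?_
        rw [← coe_cube]
        exact_mod_cast hdisj
      obtain ⟨Γ, hΓ, hΓne⟩ := exists_cube (d := d) (em k) γ' (by
        obtain ⟨j, hj⟩ := hγ
        obtain ⟨b, hb⟩ := hq k j
        exact ⟨b, j, hj, hb⟩)
      refine hgood ⟨_, h1, Γ, hΓne, ?_, ?_⟩
      · rw [← hΓ]
        rw [Finset.disjoint_left]
        intro x hx hx'
        have h3 : x ∈ C k := tra_sub (em k) (I k) (hem k) _ hx'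
        rw [mem_union, mem_inter, mem_union, mem_sdiff] at hx
        rcases hx with ⟨h4 | h4, -⟩ | h4
        · exact h4.2 h3
        · exact Finset.disjoint_left.1 (tra_disj (em k) (hemi k) _ _ hdisj') h4 hx'
        · exact Finset.disjoint_left.1 hρU h4 (hCU k h3)
      · rw [← hΓ]
        rw [tra_union] at h2
        have h3 : (Y \ C k ∪ tra (em k) (cop (a k) (q k) (A : Set (Fin d → Fin n)))) ∩ U ∪ ρ ∪
            tra (em k) (cubeSet d γ') =
            (Y \ C k ∪ (tra (em k) (cop (a k) (q k) (A : Set (Fin d → Fin n))) ∪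
              tra (em k) (cubeSet d γ'))) ∩ U ∪ ρ :=
          set2 _ _ _ _ _ _ ((tra_sub (em k) (I k) (hem k) (cubeSet d γ')).trans (hCU k))
        rw [h3]
        exact h2
  have hsum := sum_le_sum hslice
  have s1 := slices_sum U F
  have s2 := slices_sum U S
  have s1' : ∑ ρ ∈ Uᶜ.powerset, (#(univ.filter fun X : Finset (Fin d → Fin N) =>
      X ∩ U ∪ ρ ∈ F) : ℝ) = #F * 2 ^ #Uᶜ := by exact_mod_cast s1
  have s2' : ∑ ρ ∈ Uᶜ.powerset, (#(univ.filter fun X : Finset (Fin d → Fin N) =>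
      X ∩ U ∪ ρ ∈ S) : ℝ) = #S * 2 ^ #Uᶜ := by exact_mod_cast s2
  rw [← mul_sum, ← mul_sum, sum_sub_distrib, sum_add_distrib, sum_add_distrib, sum_const, sum_const,
    ← mul_sum, ← mul_sum, s1', s2', card_powerset, nsmul_eq_mul, nsmul_eq_mul] at hsum
  set Q : ℝ := (2 : ℝ) ^ #Uᶜ with hQ
  have hQ0 : 0 < Q := by positivity
  have hcast : ((2 ^ #Uᶜ : ℕ) : ℝ) = Q := by rw [hQ]; push_cast; rfl
  rw [hcast] at hsum
  have h5 : μ * #S - Real.sqrt μ * W ≤ τ * (μ * #F + Real.sqrt μ * W + μ * (K * (2 / e * W))) := by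
    have hKQ : 0 < K * Q := mul_pos hK0 hQ0
    refine le_of_mul_le_mul_left ?_ hKQ
    have e1 : K * Q * (μ * #S - Real.sqrt μ * W) =
        K * (μ * (#S * Q) - Q * (Real.sqrt μ * W)) := by ring
    have e2 : K * Q * (τ * (μ * #F + Real.sqrt μ * W + μ * (K * (2 / e * W)))) =
        τ * K * (μ * (#F * Q) + Q * (Real.sqrt μ * W) + Q * (μ * (K * (2 / e * W)))) := by ring
    rw [e1, e2]
    exact hsum
  have hs : Real.sqrt μ * Real.sqrt μ = μ := Real.mul_self_sqrt hμ0.le
  have hs0 : 0 < Real.sqrt μ := Real.sqrt_pos.2 hμ0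
  have h6 : 2 * (1 + τ) / ε ≤ Real.sqrt μ := Real.le_sqrt_of_sq_le hμ1.le
  have h7 : (1 + τ) * Real.sqrt μ ≤ μ * (ε / 2) := by
    rw [div_le_iff₀ hε] at h6
    calc (1 + τ) * Real.sqrt μ = (2 * (1 + τ)) * Real.sqrt μ / 2 := by ring
      _ ≤ (Real.sqrt μ * ε) * Real.sqrt μ / 2 := by
          have := mul_le_mul_of_nonneg_right h6 hs0.le
          linarith
      _ = (Real.sqrt μ * Real.sqrt μ) * (ε / 2) := by ring
      _ = _ := by rw [hs]
  have h8 : (1 + τ) * Real.sqrt μ * W ≤ μ * (ε / 2) * W := mul_le_mul_of_nonneg_right h7 hW0.le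
  have h9 : μ * (τ * K * (2 / e)) * W ≤ μ * (ε / 2) * W :=
    mul_le_mul_of_nonneg_right (mul_le_mul_of_nonneg_left heε hμ0.le) hW0.le
  refine le_of_mul_le_mul_left ?_ hμ0
  have e3 : τ * (μ * #F + Real.sqrt μ * W + μ * (K * (2 / e * W))) + Real.sqrt μ * W =
      μ * (τ * #F) + (1 + τ) * Real.sqrt μ * W + μ * (τ * K * (2 / e)) * W := by ring
  have e4 : μ * (τ * #F + ε * W) = μ * (τ * #F) + μ * (ε / 2) * W + μ * (ε / 2) * W := by ring
  rw [e4]
  linarith

end Pool.Agent.H700.VB
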