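import Pool.Graph.R_seed8.Y613.PJ.Pair

/-!
# The polynomial Hales-Jewett theorem with several parameters

For every colouring of the subsets of `[l] ^ d` with `k` colours there is a monochromatic copy of all the
subsets of `[n] ^ d`: disjoint nonempty sets `γ 1, ..., γ n ⊆ [l]` and a set `a` such that all the sets
`a ∪ ⋃ γ (p 1) × ... × γ (p d)`, the union over `p ∈ X`, have the same colour, for all `X ⊆ [n] ^ d`.
-/

set_option autoImplicit false

namespace Pool.Agent.H700.VB

open Finset Pool.Agent.Y613.PJ

section

variable {D n : ℕ} {ι ι₁ ι₂ Λ κ : Type}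

/-- all the entries of the cell have an index, and there is an entry -/
def Full (q : ι → Option (Fin n)) (x : Cell D ι) : Prop :=
  (∃ i, (x i).isSome) ∧ ∀ i b, x i = some b → (q b).isSome

open Classical in
/-- the letters of `u` are written into the cells with indices -/
noncomputable def subst (a : Board D ι Λ) (q : ι → Option (Fin n)) (u : Board D (Fin n) Λ) :
    Board D ι Λ :=
  fun x => if Full q x then u (fun i => (x i).bind q) else a x

theorem multi (D : ℕ) (hD : 1 ≤ D) : ∀ (n : ℕ) (Λ κ : Type) [Finite Λ] [Finite κ] [Nonempty Λ],
    ∃ (ι : Type) (_ : Finite ι), ∀ χ : Board D ι Λ → κ,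
      ∃ (a : Board D ι Λ) (q : ι → Option (Fin n)) (c : κ),
      (∀ j, ∃ b, q b = some j) ∧ ∀ u : Board D (Fin n) Λ, χ (subst a q u) = c := by
  classical
  intro n
  induction n with
  | zero =>
    intro Λ κ _ _ hΛ
    obtain ⟨t₀⟩ := hΛ
    refine ⟨Empty, inferInstance, fun χ => ⟨fun _ => t₀, Empty.elim, χ (fun _ => t₀),
      fun j => j.elim0, fun u => ?_⟩⟩
    congr 1
    funext x
    unfold subst
    rw [if_neg]
    rintro ⟨⟨i, hi⟩, -⟩
    cases h : x i with
    | none => rw [h] at hi; simp at hi
    | some b => exact b.elim
  | succ n ih =>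
    intro Λ κ _ _ hΛ
    obtain ⟨ι₁, hι₁, h1⟩ := ih Λ κ
    obtain ⟨t₀⟩ := hΛ
    obtain ⟨ι₂, hι₂, h2⟩ := pet D _ (Board D ι₁ Λ) (Board D ι₁ Λ → κ) (fun _ _ => t₀)
      (fun _ => Set.univ) rfl
    refine ⟨ι₁ ⊕ ι₂, inferInstance, fun χ => ?_⟩
    obtain ⟨W, Γ, hΓ, hW, hmono⟩ := h2 fun W B => χ (glue B W)
    obtain ⟨a, q, c, hq, hc⟩ := h1 fun B => χ (glue B W)
    set q' : ι₁ ⊕ ι₂ → Option (Fin (n + 1)) := Sum.elim (fun b => (q b).map Fin.castSucc)
      (fun b => if b ∈ Γ then some (Fin.last n) else none) with hq'
    refine ⟨glue a W, q', c, ?_, fun u => ?_⟩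
    · intro j
      refine Fin.lastCases ?_ (fun j => ?_) j
      · obtain ⟨b, hb⟩ := hΓ
        exact ⟨Sum.inr b, by simp [hq', hb]⟩
      · obtain ⟨b, hb⟩ := hq j
        exact ⟨Sum.inl b, by simp [hq', hb]⟩
    · set u' : Board D (Fin n) Λ := fun y => u fun i => (y i).map Fin.castSucc with hu'
      set v : Finset (Fin D) → Board D ι₁ Λ := fun J y =>
        if ∀ i b, y i = some b → (q b).isSome then
          u (fun i => if i ∈ J then some (Fin.last n) else
            (y i).bind fun b => (q b).map Fin.castSucc) else t₀ with hv
      have key : subst (glue a W) q' u = glue (subst a q u') (move W Γ v) := by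
        funext x
        by_cases h0 : shape (snd x) = ∅
        · have hx : ∀ i, (x i = none ∧ fst x i = none) ∨
              ∃ b, x i = some (Sum.inl b) ∧ fst x i = some b := by
            intro i
            rcases h : x i with _ | (y | y)
            · left; exact ⟨rfl, by simp [fst, h]⟩
            · right; exact ⟨y, rfl, by simp [fst, h]⟩
            · exfalso
              have : i ∈ shape (snd x) := mem_shape.2 ⟨y, by simp [snd, h]⟩
              rw [h0] at this
              exact absurd this (notMem_empty i)
          have hfull : Full q' x ↔ Full q (fst x) := by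
            unfold Full
            refine and_congr ⟨?_, ?_⟩ ⟨?_, ?_⟩
            · rintro ⟨i, hi⟩
              rcases hx i with ⟨h3, -⟩ | ⟨b, -, h4⟩
              · rw [h3] at hi; simp at hi
              · exact ⟨i, by rw [h4]; rfl⟩
            · rintro ⟨i, hi⟩
              rcases hx i with ⟨-, h3⟩ | ⟨b, h4, -⟩
              · rw [h3] at hi; simp at hi
              · exact ⟨i, by rw [h4]; rfl⟩
            · intro h i b hb
              rcases hx i with ⟨-, h3⟩ | ⟨b', h4, h5⟩
              · rw [h3] at hb; simp at hb
              · rw [h5, Option.some_inj] at hb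
                subst hb
                have := h i _ h4
                simpa [hq'] using this
            · intro h i b hb
              rcases hx i with ⟨h3, -⟩ | ⟨b', h4, h5⟩
              · rw [h3] at hb; simp at hb
              · rw [h4, Option.some_inj] at hb
                subst hb
                have := h i _ h5
                simpa [hq'] using this
          have e1 : glue (subst a q u') (move W Γ v) x = subst a q u' (fst x) := by
            unfold glue
            rw [if_pos h0]
          have e2 : glue a W x = a (fst x) := by
            unfold glue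
            rw [if_pos h0]
          rw [e1]
          unfold subst
          by_cases hf : Full q (fst x)
          · rw [if_pos hf, if_pos (hfull.2 hf), hu']
            show u _ = u _
            congr 1
            funext i
            show (x i).bind q' = ((fst x i).bind q).map Fin.castSucc
            rcases hx i with ⟨h3, h4⟩ | ⟨b, h3, h4⟩
            · rw [h3, h4]; rfl
            · rw [h3, h4]; rfl
          · rw [if_neg hf, if_neg fun h => hf (hfull.1 h), e2]
        · have hne : (shape (snd x)).Nonempty := Finset.nonempty_iff_ne_empty.2 h0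
          have hx : ∀ i, (x i = none ∧ fst x i = none ∧ snd x i = none) ∨
              (∃ b, x i = some (Sum.inl b) ∧ fst x i = some b ∧ snd x i = none) ∨
              ∃ b, x i = some (Sum.inr b) ∧ fst x i = none ∧ snd x i = some b := by
            intro i
            rcases h : x i with _ | (y | y)
            · left; exact ⟨rfl, by simp [fst, h], by simp [snd, h]⟩
            · right; left; exact ⟨y, rfl, by simp [fst, h], by simp [snd, h]⟩
            · right; right; exact ⟨y, rfl, by simp [fst, h], by simp [snd, h]⟩
          have hfull : Full q' x ↔ (Live Γ (snd x) ∧ ∀ i b, fst x i = some b → (q b).isSome) := by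
            constructor
            · rintro ⟨-, h⟩
              refine ⟨⟨hne, fun i b hb => ?_⟩, fun i b hb => ?_⟩
              · rw [Option.mem_def] at hb
                rcases hx i with ⟨-, -, h3⟩ | ⟨b', -, -, h3⟩ | ⟨b', h4, -, h3⟩
                · rw [h3] at hb; simp at hb
                · rw [h3] at hb; simp at hb
                · rw [h3, Option.some_inj] at hb
                  subst hb
                  have h5 := h i _ h4
                  by_contra h6
                  simp [hq', h6] at h5
              · rcases hx i with ⟨-, h3, -⟩ | ⟨b', h4, h3, -⟩ | ⟨b', -, h3, -⟩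
                · rw [h3] at hb; simp at hb
                · rw [h3, Option.some_inj] at hb
                  subst hb
                  have h5 := h i _ h4
                  simpa [hq'] using h5
                · rw [h3] at hb; simp at hb
            · rintro ⟨⟨-, h1⟩, h2⟩
              obtain ⟨i₀, hi₀⟩ := hne
              refine ⟨⟨i₀, ?_⟩, fun i b hb => ?_⟩
              · obtain ⟨y, hy⟩ := mem_shape.1 hi₀
                rcases hx i₀ with ⟨-, -, h3⟩ | ⟨b', -, -, h3⟩ | ⟨b', h4, -, -⟩
                · rw [h3] at hy; simp at hy
                · rw [h3] at hy; simp at hy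
                · rw [h4]; rfl
              · rcases hx i with ⟨h3, -, -⟩ | ⟨b', h3, h4, -⟩ | ⟨b', h3, -, h4⟩
                · rw [h3] at hb; simp at hb
                · rw [h3, Option.some_inj] at hb
                  subst hb
                  simpa [hq'] using h2 i _ h4
                · rw [h3, Option.some_inj] at hb
                  subst hb
                  have := h1 i b' h4
                  simp [hq', this]
          have e1 : glue (subst a q u') (move W Γ v) x = move W Γ v (snd x) (fst x) := by
            unfold glue
            rw [if_neg h0]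
          have e2 : glue a W x = W (snd x) (fst x) := by
            unfold glue
            rw [if_neg h0]
          rw [e1]
          unfold subst move
          by_cases hl : Live Γ (snd x)
          · rw [if_pos hl, hv]
            by_cases hf : ∀ i b, fst x i = some b → (q b).isSome
            · rw [if_pos (hfull.2 ⟨hl, hf⟩)]
              show u _ = if _ then _ else _
              rw [if_pos hf]
              congr 1
              funext i
              rcases hx i with ⟨h3, h4, h5⟩ | ⟨b, h3, h4, h5⟩ | ⟨b, h3, h4, h5⟩
              · have : i ∉ shape (snd x) := fun h => by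
                  obtain ⟨y, hy⟩ := mem_shape.1 h
                  rw [h5] at hy; simp at hy
                rw [if_neg this, h3, h4]; rfl
              · have : i ∉ shape (snd x) := fun h => by
                  obtain ⟨y, hy⟩ := mem_shape.1 h
                  rw [h5] at hy; simp at hy
                rw [if_neg this, h3, h4]; rfl
              · have : i ∈ shape (snd x) := mem_shape.2 ⟨b, h5⟩
                have hb : b ∈ Γ := hl.2 i b h5
                rw [if_pos this, h3]
                show (if b ∈ Γ then some (Fin.last n) else none) = _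
                rw [if_pos hb]
            · rw [if_neg fun h => hf (hfull.1 h).2, e2, hW _ hl]
              show t₀ = if _ then _ else _
              rw [if_neg hf]
          · rw [if_neg hl, if_neg fun h => hl (hfull.1 h).1, e2]
      rw [key]
      have hV := congrFun (hmono v ⟨D, hD, le_refl D, fun J hJ => by
        exact absurd hJ (by simpa using Finset.card_le_univ J), v, Set.mem_univ _,
        fun J _ => rfl⟩) (subst a q u')
      exact hV.trans (hc u')

end

/-- the copy of the set `X` -/
def cop {d l n : ℕ} (a : Set (Fin d → Fin l)) (q : Fin l → Option (Fin n))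
    (X : Set (Fin d → Fin n)) : Set (Fin d → Fin l) :=
  {x | (∃ p ∈ X, ∀ i, q (x i) = some (p i)) ∨ (x ∈ a ∧ ∃ i, q (x i) = none)}

theorem multi_fin (d : ℕ) (hd : 1 ≤ d) (n : ℕ) (κ : Type) [Finite κ] :
    ∃ l : ℕ, ∀ χ : Set (Fin d → Fin l) → κ,
      ∃ (a : Set (Fin d → Fin l)) (q : Fin l → Option (Fin n)),
        (∀ j, ∃ b, q b = some j) ∧ ∀ X Y : Set (Fin d → Fin n), χ (cop a q X) = χ (cop a q Y) := by
  classical
  obtain ⟨ι, hι, h⟩ := multi d hd n Prop κ
  have hfin : Fintype ι := Fintype.ofFinite ι
  let e := Fintype.equivFin ι
  refine ⟨Fintype.card ι, fun χ => ?_⟩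
  obtain ⟨a, q, c, h1, h2⟩ := h fun a => χ {x | a fun i => some (e.symm (x i))}
  refine ⟨{x | a fun i => some (e.symm (x i))}, fun b => q (e.symm b), fun j => ?_, ?_⟩
  · obtain ⟨b, hb⟩ := h1 j
    exact ⟨e b, by simpa using hb⟩
  · have key : ∀ X : Set (Fin d → Fin n),
        χ (cop {x | a fun i => some (e.symm (x i))} (fun b => q (e.symm b)) X) = c := by
      intro X
      rw [← h2 fun y => ∃ p ∈ X, ∀ i, y i = some (p i)]
      congr 1
      ext x
      have e1 : Full q (fun i => some (e.symm (x i)) : Cell d ι) ↔
          ∀ i, (q (e.symm (x i))).isSome := by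
        constructor
        · rintro ⟨-, h3⟩ i
          exact h3 i _ rfl
        · intro h3
          refine ⟨⟨⟨0, hd⟩, rfl⟩, fun i b hb => ?_⟩
          rw [Option.some_inj] at hb
          rw [← hb]
          exact h3 i
      show ((∃ p ∈ X, ∀ i, q (e.symm (x i)) = some (p i)) ∨
        ((a fun i => some (e.symm (x i))) ∧ ∃ i, q (e.symm (x i)) = none)) ↔
          subst a q (fun y => ∃ p ∈ X, ∀ i, y i = some (p i)) (fun i => some (e.symm (x i)))
      unfold subst
      by_cases h3 : ∀ i, (q (e.symm (x i))).isSome
      · rw [if_pos (e1.2 h3)]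
        have h4 : ¬ ∃ i, q (e.symm (x i)) = none := by
          rintro ⟨i, hi⟩
          have := h3 i
          rw [hi] at this
          simp at this
        constructor
        · rintro (h5 | h5)
          · exact h5
          · exact absurd h5.2 h4
        · intro h5
          exact Or.inl h5
      · rw [if_neg fun h => h3 (e1.1 h)]
        have h4 : ∃ i, q (e.symm (x i)) = none := by
          by_contra hcon
          push Not at hcon
          exact h3 fun i => Option.isSome_iff_ne_none.2 (hcon i)
        constructor
        · rintro (⟨p, -, h5⟩ | h5)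
          · obtain ⟨i, hi⟩ := h4
            rw [h5 i] at hi
            simp at hi
          · exact h5.1
        · intro h5
          exact Or.inr ⟨h5, h4⟩
    intro X Y
    rw [key X, key Y]

theorem cop_union {d l n : ℕ} (a : Set (Fin d → Fin l)) (q : Fin l → Option (Fin n))
    (X : Set (Fin d → Fin n)) (γ : Set (Fin n)) :
    cop a q (X ∪ cubeSet d γ) = cop a q X ∪ cubeSet d {b | ∃ j ∈ γ, q b = some j} := by
  ext x
  constructor
  · rintro (⟨p, hp | hp, h⟩ | h)
    · exact Or.inl (Or.inl ⟨p, hp, h⟩)
    · exact Or.inr fun i => ⟨p i, hp i, h i⟩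
    · exact Or.inl (Or.inr h)
  · rintro ((⟨p, hp, h⟩ | h) | h)
    · exact Or.inl ⟨p, Or.inl hp, h⟩
    · exact Or.inr h
    · choose p hp hp' using h
      exact Or.inl ⟨p, Or.inr hp, hp'⟩

theorem cop_disj {d l n : ℕ} (a : Set (Fin d → Fin l)) (q : Fin l → Option (Fin n))
    (X : Set (Fin d → Fin n)) (γ : Set (Fin n)) (h : Disjoint X (cubeSet d γ)) :
    Disjoint (cop a q X) (cubeSet d {b | ∃ j ∈ γ, q b = some j}) := by
  rw [Set.disjoint_left]
  rintro x (⟨p, hp, h1⟩ | ⟨-, i, hi⟩) hx
  · refine Set.disjoint_left.1 h hp fun i => ?_
    obtain ⟨j, hj, hj'⟩ := hx i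
    rw [h1 i, Option.some_inj] at hj'
    rw [hj']
    exact hj
  · obtain ⟨j, -, hj'⟩ := hx i
    rw [hi] at hj'
    simp at hj'

end Pool.Agent.H700.VB
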