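import Pool.Graph.R_pool_sql_team_seeded_b0a926ef.R533.VC.Rand
import Pool.Agent.H700.VB.Multi

/-!
# A copy of all the subsets of `[n] ^ d` which are nearly equivalent for a relation of bounded VC dimension
-/

set_option autoImplicit false

namespace Pool.Agent.H700.VB

open Finset Pool.Agent.R533.VC Pool.Agent.Y613.PJ

/-- dual VC dimension -/
theorem vc_dual {X Y : Type*} (F : X → Y → Bool) (D : ℕ)
    (h : ∀ (n : ℕ) (y : Fin n → Y), (∀ T : Fin n → Bool, ∃ x, ∀ i, F x (y i) = T i) → n ≤ D) :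
    VCdim F (2 ^ (D + 1)) := by
  classical
  intro k x hx
  by_contra hcon
  push Not at hcon
  obtain ⟨e⟩ : Nonempty ((Fin (D + 1) → Bool) ↪ Fin k) :=
    Function.Embedding.nonempty_of_card_le (by
      rw [Fintype.card_fun, Fintype.card_bool, Fintype.card_fin, Fintype.card_fin]
      exact hcon.le)
  have : ∀ i : Fin (D + 1), ∃ y, ∀ T : Fin (D + 1) → Bool, F (x (e T)) y = T i := by
    intro i
    obtain ⟨y, hy⟩ := hx fun j => if h : ∃ T, e T = j then h.choose i else false
    refine ⟨y, fun T => ?_⟩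
    rw [hy (e T)]
    have hex : ∃ T', e T' = e T := ⟨T, rfl⟩
    rw [dif_pos hex]
    have := e.injective hex.choose_spec
    rw [this]
  choose y hy using this
  have := h (D + 1) y fun T => ⟨x (e T), fun i => hy i T⟩
  omega

theorem dif_triangle {X Y : Type*} (F : X → Y → Bool) (A : Finset X) (y y' c : Y) :
    dif F A y y' ≤ dif F A y c + dif F A y' c := by
  classical
  unfold dif
  refine (card_le_card ?_).trans (card_union_le _ _)
  intro x hx
  rw [mem_union, mem_filter, mem_filter]
  rw [mem_filter] at hx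
  by_cases h : F x y = F x c
  · right
    exact ⟨hx.1, fun h' => hx.2 (h.trans h'.symm)⟩
  · left
    exact ⟨hx.1, h⟩

/-- For bounded VC dimension there is a copy of the subsets of `[n] ^ d` whose members differ at few places
only. -/
theorem close_copy (d : ℕ) (hd : 1 ≤ d) (n D e : ℕ) (he : 1 ≤ e) : ∃ l : ℕ,
    ∀ (X : Type) (A : Finset X) (F : X → Set (Fin d → Fin l) → Bool), A.Nonempty →
      Growth F D → ∃ (a : Set (Fin d → Fin l)) (q : Fin l → Option (Fin n)),
        (∀ j, ∃ b, q b = some j) ∧ ∀ Z Z' : Set (Fin d → Fin n),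
          e * dif F A (cop a q Z) (cop a q Z') ≤ 2 * A.card := by
  classical
  set K := 2 ^ (2 * D * (2 * e + 2 * D) + 2) with hK
  obtain ⟨l, hl⟩ := multi_fin d hd n (Fin K)
  refine ⟨l, fun X A F hA hF => ?_⟩
  obtain ⟨P, hsep, cen, hcen⟩ := cover F A (univ : Finset (Set (Fin d → Fin l))) e
  have hP : P.card ≤ K := pack F D hF A hA P e he hsep (2 * e) (2 * D)
    Nat.lt_two_pow_self.le Nat.lt_two_pow_self.le
  obtain ⟨ε⟩ : Nonempty (P ↪ Fin K) := Function.Embedding.nonempty_of_card_le (by
    rw [Fintype.card_fin, Fintype.card_coe]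
    exact hP)
  obtain ⟨a, q, h1, h2⟩ := hl fun a => ε ⟨cen a, (hcen a (mem_univ a)).1⟩
  refine ⟨a, q, h1, fun Z Z' => ?_⟩
  have h4 := congrArg Subtype.val (ε.injective (h2 Z Z'))
  simp only at h4
  have h5 := (hcen (cop a q Z) (mem_univ _)).2
  have h6 := (hcen (cop a q Z') (mem_univ _)).2
  rw [← h4] at h6
  calc e * dif F A (cop a q Z) (cop a q Z')
      ≤ e * (dif F A (cop a q Z) (cen (cop a q Z)) + dif F A (cop a q Z') (cen (cop a q Z))) :=
        Nat.mul_le_mul_left _ (dif_triangle _ _ _ _ _)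
    _ = e * dif F A (cop a q Z) (cen (cop a q Z)) +
        e * dif F A (cop a q Z') (cen (cop a q Z)) := by ring
    _ ≤ _ := by omega

end Pool.Agent.H700.VB
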