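import Pool.Agent.H700.VB.Sign
import Pool.Agent.H700.VB.Hom

/-!
# Boolean combinations of matrix programs
-/

set_option autoImplicit false

namespace Pool.Agent.H700.VB

open Finset Pool.Agent.Y613.PJ Pool.Agent.Y613.RA Pool.Agent.R756.WP

section concat

variable {K Q X : Type} [Field K] [Fintype Q] [DecidableEq Q]

theorem pr_one (M : ℕ → Bool → Matrix Q Q K) (cell : ℕ → Option X) (s k : ℕ) (z : X → Bool)
    (h : ∀ t, s ≤ t → t < s + k → ∀ β, M t β = 1) : pr M cell s k z = 1 := by
  unfold pr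
  refine List.prod_eq_one fun x hx => ?_
  rw [List.mem_map] at hx
  obtain ⟨t, ht, rfl⟩ := hx
  rw [List.mem_range'_1] at ht
  exact h t ht.1 ht.2 _

theorem pr_shift (M M' : ℕ → Bool → Matrix Q Q K) (cell cell' : ℕ → Option X) (s k : ℕ)
    (z : X → Bool) (h : ∀ u < k, ∀ β, M (s + u) β = M' u β)
    (h' : ∀ u < k, cell (s + u) = cell' u) : pr M cell s k z = pr M' cell' 0 k z := by
  unfold pr
  rw [List.range'_eq_map_range, List.range'_eq_map_range, List.map_map, List.map_map]
  congr 1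
  refine List.map_congr_left fun u hu => ?_
  rw [List.mem_range] at hu
  simp only [Function.comp, zero_add]
  rw [h u hu]
  unfold rd
  rw [h' u hu]

end concat

section concat2

variable {X : Type} {w r : ℕ} {K : Fin r → Type} [∀ i, Field (K i)]

/-- the cells which are read by the programs one after the other -/
def ccell (P : ∀ i, MatProgram (K i) w X) (L : ℕ) (t : ℕ) : Option X :=
  if h : t / L < r then
    if t % L < (P ⟨t / L, h⟩).len then (P ⟨t / L, h⟩).cell (t % L) else none
  else none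

/-- the matrices of the program number `i`, made as long as all the programs together -/
def cmat (P : ∀ i, MatProgram (K i) w X) (L : ℕ) (i : Fin r) (t : ℕ) (β : Bool) :
    Matrix (Fin w) (Fin w) (K i) :=
  if t / L = i ∧ t % L < (P i).len then (P i).mat (t % L) β else 1

theorem cpr (P : ∀ i, MatProgram (K i) w X) (L : ℕ) (hL : ∀ i, (P i).len < L) (i : Fin r)
    (z : X → Bool) : pr (cmat P L i) (ccell P L) 0 (r * L) z =
      pr (P i).mat (P i).cell 0 (P i).len z := by
  have hL0 : 0 < L := lt_of_le_of_lt (Nat.zero_le _) (hL i)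
  have hi : ((i : ℕ) + 1) * L ≤ r * L := Nat.mul_le_mul_right L i.2
  rw [add_mul, one_mul] at hi
  have hlen := hL i
  have e : r * L = i * L + ((P i).len + (r * L - i * L - (P i).len)) := by omega
  have hdiv : ∀ u < (P i).len, (i * L + u) / L = i ∧ (i * L + u) % L = u := by
    intro u hu
    have hu' : u < L := hu.trans hlen
    constructor
    · rw [mul_comm, Nat.mul_add_div hL0, Nat.div_eq_of_lt hu', add_zero]
    · rw [mul_comm, Nat.mul_add_mod, Nat.mod_eq_of_lt hu']
  rw [e, pr_add, pr_add, zero_add]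
  have h1 : pr (cmat P L i) (ccell P L) 0 (i * L) z = 1 := by
    refine pr_one _ _ _ _ _ fun t _ ht β => ?_
    rw [zero_add] at ht
    have h2 : t / L < i := (Nat.div_lt_iff_lt_mul hL0).2 ht
    unfold cmat
    rw [if_neg fun h => by omega]
  have h3 : pr (cmat P L i) (ccell P L) (i * L + (P i).len)
      (r * L - i * L - (P i).len) z = 1 := by
    refine pr_one _ _ _ _ _ fun t ht _ β => ?_
    unfold cmat
    rw [if_neg]
    rintro ⟨h4, h5⟩
    have h6 := Nat.div_add_mod t L
    rw [h4, mul_comm] at h6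
    omega
  rw [h1, h3, one_mul, mul_one]
  refine pr_shift _ _ _ _ _ _ _ (fun u hu β => ?_) fun u hu => ?_
  · obtain ⟨h4, h5⟩ := hdiv u hu
    unfold cmat
    rw [if_pos ⟨h4, by rw [h5]; exact hu⟩, h5]
  · obtain ⟨h4, h5⟩ := hdiv u hu
    unfold ccell
    rw [dif_pos (by rw [h4]; exact i.2)]
    have e1 : (⟨(i * L + u) / L, by rw [h4]; exact i.2⟩ : Fin r) = i := Fin.ext h4
    rw [e1, h5, if_pos hu]

theorem cvalue (P : ∀ i, MatProgram (K i) w X) (L : ℕ) (hL : ∀ i, (P i).len < L) (i : Fin r)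
    (z : X → Bool) : (P i).value z =
      val (P i).start (P i).accept (cmat P L i) (ccell P L) (r * L) z := by
  rw [MatProgram.value_eq]
  unfold Pool.Agent.R756.WP.val
  rw [cpr P L hL i z]

omit [∀ i, Field (K i)] in
theorem cocc (P : ∀ i, MatProgram (K i) w X) (L : ℕ) (p : ℕ)
    (hP : ∀ i, (P i).ReadAtMost p) (t : ℕ) (c : X) (hc : ccell P L t = some c) :
    occ (ccell P L) t ≤ r * p := by
  classical
  unfold occ
  have hsub : ((Finset.range t).filter fun s => ccell P L s = ccell P L t) ⊆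
      (univ : Finset (Fin r)).biUnion fun i =>
        ((Finset.range (P i).len).filter fun u => (P i).cell u = some c).image
          fun u => (i : ℕ) * L + u := by
    intro s hs
    rw [mem_filter, mem_range, hc] at hs
    obtain ⟨h1, h2⟩ := hs
    unfold ccell at h2
    split_ifs at h2 with h3 h4
    rw [mem_biUnion]
    refine ⟨⟨s / L, h3⟩, mem_univ _, ?_⟩
    rw [mem_image]
    refine ⟨s % L, ?_, ?_⟩
    · rw [mem_filter, mem_range]
      exact ⟨h4, h2⟩
    · show s / L * L + s % L = s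
      rw [mul_comm]
      exact Nat.div_add_mod s L
  refine (card_le_card hsub).trans (card_biUnion_le.trans ?_)
  calc ∑ i : Fin r, #(((Finset.range (P i).len).filter fun u => (P i).cell u = some c).image
          fun u => (i : ℕ) * L + u)
      ≤ ∑ _i : Fin r, p := sum_le_sum fun i _ => card_image_le.trans (by
        have := hP i c
        convert this)
    _ = r * p := by rw [sum_const, card_univ, Fintype.card_fin, smul_eq_mul]

end concat2

/-- rank at a block, for fixed contents of the cells outside of the blocks -/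
theorem sections_of_prog {K : Type} [Field K] {acc : K → Prop} (hacc : Thin K acc)
    {d : ℕ} (hd : 1 ≤ d) {N l b R : ℕ} (hb : b * l ≤ N) (σ : Fin N ≃ Fin N)
    (f : ((Fin d → Fin N) → Bool) → K)
    (hrk : ∀ (ρ : Rest σ hb d → Bool) (k : Fin b), ∃ (κ : Type) (_ : Fintype κ)
      (α β : κ → Conf b (Fin d → Fin l) (Rest σ hb d) → K), Fintype.card κ ≤ R ∧
        (∀ i y y', out y = ρ → out y' = ρ → cont y k = cont y' k → α i y = α i y') ∧
        (∀ i y u, out y = ρ → β i (put y k u) = β i y) ∧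
        ∀ y, out y = ρ → f (fun c => y ((cellEquiv hd σ hb).symm c)) = ∑ i, α i y * β i y)
    (I : Fin b → Finset (Fin N)) (hI : ∀ k i, i ∈ I k ↔ ∃ a : Fin l, coord σ hb k a = i)
    (F : Finset (Finset (Fin d → Fin N)))
    (hF : ∀ A, A ∈ F ↔ acc (f (fun c => decide (c ∈ A)))) (k : Fin b) :
    SectionsVC R (cube d (I k)) (univ.biUnion fun k => cube d (I k)) F := by
  classical
  set U : Finset (Fin d → Fin N) := univ.biUnion fun k => cube d (I k) with hU
  refine sections_of_rank hacc R _ _ F (fun A => f (fun c => decide (c ∈ A))) hF fun ρ hρ => ?_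
  have hin : ∀ j s, cellEquiv hd σ hb s ∈ cube d (I j) ↔ ∃ x, s = Sum.inl (j, x) := by
    intro j s
    rw [cube, Fintype.mem_piFinset]
    constructor
    · intro h
      choose x hx using fun i => (hI j _).1 (h i)
      refine ⟨x, ?_⟩
      apply (cellEquiv hd σ hb).injective
      rw [cellEquiv_inl]
      funext i
      exact (hx i).symm
    · rintro ⟨x, rfl⟩ i
      rw [hI j, cellEquiv_inl]
      exact ⟨x i, rfl⟩
  have hinU : ∀ s, cellEquiv hd σ hb s ∈ U ↔ ∃ j x, s = Sum.inl (j, x) := by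
    intro s
    rw [hU, mem_biUnion]
    constructor
    · rintro ⟨j, -, h⟩
      exact ⟨j, (hin j s).1 h⟩
    · rintro ⟨j, h⟩
      exact ⟨j, mem_univ _, (hin j s).2 h⟩
  have hBU : cube d (I k) ⊆ U := subset_biUnion_of_mem (fun k => cube d (I k)) (mem_univ k)
  let T : Finset (Fin d → Fin N) → Conf b (Fin d → Fin l) (Rest σ hb d) := fun A =>
    conf hd σ hb (fun c => decide (c ∈ A))
  have hT : ∀ A s, T A s = decide (cellEquiv hd σ hb s ∈ A) := fun A s => rfl
  have hout : ∀ Z ⊆ U, out (T (Z ∪ ρ)) = out (T ρ) := by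
    intro Z hZ
    funext q
    show decide (cellEquiv hd σ hb (Sum.inr q) ∈ Z ∪ ρ) = decide (cellEquiv hd σ hb (Sum.inr q) ∈ ρ)
    rw [decide_eq_decide, mem_union]
    refine ⟨fun h => h.resolve_left fun h' => ?_, Or.inr⟩
    obtain ⟨j, x, hjx⟩ := (hinU _).1 (hZ h')
    exact absurd hjx (by simp)
  obtain ⟨κ, hκ, α, β, h1, h2, h3, h4⟩ := hrk (out (T ρ)) k
  refine ⟨κ, hκ, fun i X => α i (T (X ∪ ρ)), fun i Y => β i (T (Y ∪ ρ)), h1, fun X hX Y hY => ?_⟩
  have hXU : X ⊆ U := hX.trans hBU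
  have hYU : Y ⊆ U := hY.trans sdiff_subset
  have h5 := h4 (T (X ∪ Y ∪ ρ)) (hout _ (union_subset hXU hYU))
  have e1 : (fun c => T (X ∪ Y ∪ ρ) ((cellEquiv hd σ hb).symm c)) =
      fun c => decide (c ∈ X ∪ Y ∪ ρ) := by
    funext c
    rw [hT, Equiv.apply_symm_apply]
  rw [e1] at h5
  show f (fun c => decide (c ∈ X ∪ Y ∪ ρ)) = _
  rw [h5]
  refine sum_congr rfl fun i _ => ?_
  congr 1
  · refine h2 i _ _ (hout _ (union_subset hXU hYU)) (hout _ hXU) ?_
    funext x
    show decide (cellEquiv hd σ hb (Sum.inl (k, x)) ∈ X ∪ Y ∪ ρ) =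
      decide (cellEquiv hd σ hb (Sum.inl (k, x)) ∈ X ∪ ρ)
    have h6 : cellEquiv hd σ hb (Sum.inl (k, x)) ∉ Y := fun h =>
      (mem_sdiff.1 (hY h)).2 ((hin k _).2 ⟨x, rfl⟩)
    rw [decide_eq_decide, mem_union, mem_union, mem_union]
    tauto
  · have e2 : T (Y ∪ ρ) = put (T (X ∪ Y ∪ ρ)) k (cont (T (Y ∪ ρ)) k) := by
      funext s
      rcases s with ⟨j, x⟩ | q
      · simp only [put, cont]
        split_ifs with h
        · rw [h]
        · have h6 : cellEquiv hd σ hb (Sum.inl (j, x)) ∉ X := by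
            intro h'
            obtain ⟨x', hx'⟩ := (hin k _).1 (hX h')
            rw [Sum.inl.injEq, Prod.mk.injEq] at hx'
            exact h hx'.1
          rw [hT, hT, decide_eq_decide, mem_union, mem_union, mem_union]
          tauto
      · have h6 : cellEquiv hd σ hb (Sum.inr q) ∉ X := by
          intro h'
          obtain ⟨x', hx'⟩ := (hin k _).1 (hX h')
          exact absurd hx' (by simp)
        show T (Y ∪ ρ) (Sum.inr q) = T (X ∪ Y ∪ ρ) (Sum.inr q)
        rw [hT, hT, decide_eq_decide, mem_union, mem_union, mem_union]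
        tauto
    show β i (T (X ∪ Y ∪ ρ)) = β i (T (Y ∪ ρ))
    rw [e2, h3 i _ _ (hout _ (union_subset hXU hYU))]

/-- The family `G` is decided by a program of matrices of size `w` in which each cell is read at most `p`
times: either the matrices are real and `G` consists of the sets for which the value is positive, or the
matrices are over some field and `G` consists of the sets for which the value is not zero. -/
def ProgramDecided (d N w p : ℕ) (G : Finset (Finset (Fin d → Fin N))) : Prop :=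
  (∃ P : MatProgram ℝ w (Fin d → Fin N), P.ReadAtMost p ∧
    ∀ A, A ∈ G ↔ 0 < P.value (fun c => decide (c ∈ A))) ∨
  ∃ (K : Type) (_ : Field K) (P : MatProgram K w (Fin d → Fin N)), P.ReadAtMost p ∧
    ∀ A, A ∈ G ↔ P.value (fun c => decide (c ∈ A)) ≠ 0

/-- **Boolean combinations of programs.** -/
theorem prog_main (d : ℕ) (hd : 1 ≤ d) (n : ℕ) (τ : ℝ) (hτ0 : 0 ≤ τ)
    (hτ : ∀ T : Finset (Finset (Fin d → Fin n)), τ * 2 ^ (n ^ d) < #T → Good T)
    (w p r : ℕ) (hw : 1 ≤ w) (ε : ℝ) (hε : 0 < ε) :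
    ∃ N₀ : ℕ, ∀ N : ℕ, N₀ ≤ N →
      ∀ (G : Fin r → Finset (Finset (Fin d → Fin N))) (g : (Fin r → Bool) → Bool)
        (F S : Finset (Finset (Fin d → Fin N))), (∀ i, ProgramDecided d N w p (G i)) →
        (∀ A, A ∈ F ↔ g (fun i => decide (A ∈ G i)) = true) → S ⊆ F → ¬ Good S →
        (#S : ℝ) ≤ τ * #F + ε * 2 ^ (N ^ d) := by
  classical
  obtain ⟨l, M, hmain⟩ := main d hd n τ hτ0 hτ
    ((w ^ 2) ^ Fintype.card ((Fin d → Fin d → Bool) × Fin (r * p + 1))) r ε hε
  obtain ⟨C, hC⟩ := exists_hom d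
  obtain ⟨a, ha⟩ := hC (r * p)
  refine ⟨RC.tow C (a * (M * l + 2 * d + 1)), fun N hN G g F S hG hF hSF hgood => ?_⟩
  have hex : ∀ i, ∃ (K : Type) (_ : Field K) (P : MatProgram K w (Fin d → Fin N))
      (acc : K → Prop), Thin K acc ∧ P.ReadAtMost p ∧
        ∀ A, A ∈ G i ↔ acc (P.value (fun c => decide (c ∈ A))) := by
    intro i
    rcases hG i with ⟨P, h1, h2⟩ | ⟨K, hK, P, h1, h2⟩
    · exact ⟨ℝ, inferInstance, P, _, thin_pos, h1, h2⟩
    · exact ⟨K, hK, P, _, thin_ne K, h1, h2⟩
  choose K hK P acc hthin hP hGP using hex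
  obtain ⟨L, hL⟩ : ∃ L, ∀ i, (P i).len < L :=
    ⟨(univ.sup fun i => (P i).len) + 1, fun i =>
      Nat.lt_succ_of_le (le_sup (f := fun i => (P i).len) (mem_univ i))⟩
  obtain ⟨T, hTN, hTK, hom⟩ := ha N (M * l + 2 * d) (r * L) (ccell P L) hN
  obtain ⟨σ, hσ⟩ := rank_of_hom hd (w := w) (p := r * p) (l := l) (ccell P L)
    (fun t _ c hc => cocc P L p hP t c hc) T hTN hTK hom
  have hKN : M * l ≤ N := by
    have := card_le_card hTN
    rw [hTK, card_range] at this
    omega
  have : Nonempty (Fin w) := ⟨⟨0, hw⟩⟩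
  refine hmain N (fun k => univ.image (coord σ hKN k)) (fun k => ?_) (fun j k hjk => ?_)
    G g F S (fun i k => ?_) hF hSF hgood
  · rw [card_image_of_injective _ fun x y hxy => (coord_inj σ hKN hxy).2, card_univ,
      Fintype.card_fin]
  · rw [Finset.disjoint_left]
    intro x hx hx'
    obtain ⟨y, -, rfl⟩ := mem_image.1 hx
    obtain ⟨y', -, hy'⟩ := mem_image.1 hx'
    exact hjk (coord_inj σ hKN hy').1.symm
  · refine sections_of_prog (hthin i) hd hKN σ (fun z => (P i).value z) (fun ρ k => ?_)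
      (fun k => univ.image (coord σ hKN k)) (fun k x => by simp) _ (hGP i) k
    obtain ⟨κ, hκ, α, β, h1, h2, h3, h4⟩ := hσ (K i) (Fin w) (by rw [Fintype.card_fin]) (P i).start
      (P i).accept (cmat P L i) M hKN le_rfl ρ k
    refine ⟨κ, hκ, α, β, h1, h2, h3, fun y hy => ?_⟩
    rw [← h4 y hy]
    exact cvalue P L hL i _

end Pool.Agent.H700.VB
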