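import Pool.Agent.H700.VB.Main
import Pool.Graph.R_seed8.R756.WP.Flat

/-!
# Positivity sets and supports of functions of small rank
-/

set_option autoImplicit false

namespace Pool.Agent.H700.VB

open Finset Pool.Agent.Y613.PJ Pool.Agent.R756.WP

/-- If there are more vectors than coordinates, then some pattern of acceptance does not occur. -/
def Thin (K : Type) [Field K] (acc : K → Prop) : Prop :=
  ∀ (κ : Type) [Fintype κ] (n : ℕ), Fintype.card κ < n → ∀ v : Fin n → κ → K,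
    ∃ T : Fin n → Bool, ∀ β : κ → K, ¬ ∀ j, (acc (∑ i, v j i * β i) ↔ T j = true)

theorem exists_dep {K : Type} [Field K] {κ : Type} [Fintype κ] {n : ℕ} (h : Fintype.card κ < n)
    (v : Fin n → κ → K) : ∃ c : Fin n → K, (∀ i, ∑ j, c j * v j i = 0) ∧ ∃ j, c j ≠ 0 := by
  have h1 : ¬ LinearIndependent K v := by
    intro hli
    have := hli.fintype_card_le_finrank
    rw [Module.finrank_pi, Fintype.card_fin] at this
    omega
  rw [Fintype.not_linearIndependent_iff] at h1
  obtain ⟨c, hc, j, hj⟩ := h1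
  refine ⟨c, fun i => ?_, j, hj⟩
  have := congrFun hc i
  simpa [Finset.sum_apply] using this

theorem dep_zero {K : Type} [Field K] {κ : Type} [Fintype κ] {n : ℕ} (v : Fin n → κ → K)
    (c : Fin n → K) (hc : ∀ i, ∑ j, c j * v j i = 0) (β : κ → K) :
    ∑ j, c j * ∑ i, v j i * β i = 0 := by
  calc ∑ j, c j * ∑ i, v j i * β i = ∑ j, ∑ i, c j * (v j i * β i) :=
        sum_congr rfl fun j _ => by rw [mul_sum]
    _ = ∑ i, ∑ j, c j * (v j i * β i) := sum_comm
    _ = ∑ i, (∑ j, c j * v j i) * β i :=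
        sum_congr rfl fun i _ => by
          rw [sum_mul]
          exact sum_congr rfl fun j _ => by ring
    _ = 0 := by simp [hc]

theorem thin_pos : Thin ℝ (fun x => 0 < x) := by
  intro κ _ n h v
  obtain ⟨c, hc, j₀, hj₀⟩ : ∃ c : Fin n → ℝ, (∀ i, ∑ j, c j * v j i = 0) ∧ ∃ j, 0 < c j := by
    obtain ⟨c, hc, j, hj⟩ := exists_dep h v
    rcases lt_or_gt_of_ne hj with h2 | h2
    · refine ⟨fun j => - c j, fun i => ?_, j, by simpa using h2⟩
      have := hc i
      simp only [neg_mul, sum_neg_distrib, this, neg_zero]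
    · exact ⟨c, hc, j, h2⟩
  refine ⟨fun j => decide (0 < c j), fun β hβ => ?_⟩
  have h1 : ∀ j, 0 ≤ c j * ∑ i, v j i * β i := by
    intro j
    have h2 := hβ j
    rw [decide_eq_true_iff] at h2
    by_cases h3 : 0 < c j
    · exact (mul_pos h3 (h2.2 h3)).le
    · have h4 : ¬ 0 < ∑ i, v j i * β i := fun h => h3 (h2.1 h)
      exact mul_nonneg_of_nonpos_of_nonpos (not_lt.1 h3) (not_lt.1 h4)
  have h2 := (sum_eq_zero_iff_of_nonneg fun j _ => h1 j).1 (dep_zero v c hc β) j₀ (mem_univ _)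
  have h3 := hβ j₀
  rw [decide_eq_true_iff] at h3
  exact absurd h2 (mul_pos hj₀ (h3.2 hj₀)).ne'

theorem thin_ne (K : Type) [Field K] : Thin K (fun x => x ≠ 0) := by
  intro κ _ n h v
  obtain ⟨c, hc, j₀, hj₀⟩ := exists_dep h v
  refine ⟨fun j => decide (j = j₀), fun β hβ => ?_⟩
  have h1 := dep_zero v c hc β
  rw [Finset.sum_eq_single j₀] at h1
  · have h3 := hβ j₀
    rw [decide_eq_true_iff] at h3
    exact (mul_ne_zero hj₀ (h3.2 rfl)) h1
  · intro j _ hj
    have h3 := hβ j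
    rw [decide_eq_true_iff] at h3
    have h4 : ∑ i, v j i * β i = 0 := by
      by_contra h5
      exact hj (h3.1 h5)
    rw [h4, mul_zero]
  · intro h5
    exact absurd (mem_univ _) h5

/-- a family given by a function of rank at most `r` has sections of VC dimension at most `r` -/
theorem sections_of_rank {E : Type} [DecidableEq E] {K : Type} [Field K] {acc : K → Prop}
    (hacc : Thin K acc) (r : ℕ) (B U : Finset E)
    (F : Finset (Finset E)) (f : Finset E → K) (hF : ∀ A, A ∈ F ↔ acc (f A))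
    (h : ∀ ρ, Disjoint ρ U → ∃ (κ : Type) (_ : Fintype κ) (α β : κ → Finset E → K),
      Fintype.card κ ≤ r ∧ ∀ X ⊆ B, ∀ Y ⊆ U \ B, f (X ∪ Y ∪ ρ) = ∑ i, α i X * β i Y) :
    SectionsVC r B U F := by
  classical
  intro ρ hρ n x hx hsh
  by_contra hcon
  push Not at hcon
  obtain ⟨κ, hκ, α, β, hκr, hf⟩ := h ρ hρ
  obtain ⟨T, hT⟩ := hacc κ n (lt_of_le_of_lt hκr hcon) (fun j i => α i (x j))
  obtain ⟨Y, hY, hYT⟩ := hsh T
  refine hT (fun i => β i Y) fun j => ?_
  rw [← hYT j, hF, hf _ (hx j) _ hY]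

theorem sections_of_flat {d N : ℕ} {K : Type} [Field K] {acc : K → Prop}
    (hacc : Thin K acc) (r : ℕ) (B U : Finset (Fin d → Fin N)) (hBU : B ⊆ U)
    (F : Finset (Finset (Fin d → Fin N))) (f : Finset (Fin d → Fin N) → K)
    (hF : ∀ A, A ∈ F ↔ acc (f A)) (h : FlatRank r B f) : SectionsVC r B U F := by
  classical
  refine sections_of_rank hacc r B U F f hF fun ρ hρ => ?_
  obtain ⟨a, b, hab⟩ := h
  refine ⟨Fin r, inferInstance, a, fun i Y => b i (Y ∪ ρ), by simp, fun X hX Y hY => ?_⟩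
  rw [hab]
  have hρ' : ∀ x, x ∈ ρ → x ∉ U := fun x h h' => Finset.disjoint_left.1 hρ h h'
  have e1 : (X ∪ Y ∪ ρ) ∩ B = X := by
    ext x
    have h1 := @hX x
    have h2 := @hY x
    have h3 := hρ' x
    have h4 := @hBU x
    simp only [mem_inter, mem_union, mem_sdiff] at h2 ⊢
    tauto
  have e2 : (X ∪ Y ∪ ρ) \ B = Y ∪ ρ := by
    ext x
    have h1 := @hX x
    have h2 := @hY x
    have h3 := hρ' x
    have h4 := @hBU x
    simp only [mem_union, mem_sdiff] at h2 ⊢
    tauto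
  rw [e1, e2]

end Pool.Agent.H700.VB
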