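import Pool.Agent.H700.VB.Prog

/-!
# Superlevel sets of trigonometric polynomials
-/

set_option autoImplicit false

namespace Pool.Agent.H700.VB

open Finset Pool.Agent.Y613.PJ

/-- The superlevel set of a trigonometric polynomial with `s` frequencies has sections of VC dimension at
most `2 s + 1`. -/
theorem sections_of_trig {E : Type} [DecidableEq E] (s : ℕ) (B U : Finset E) (hBU : B ⊆ U)
    (G : Finset (Finset E)) (b φ : Fin s → ℝ) (θ : Fin s → E → ℝ) (t : ℝ)
    (hG : ∀ A, A ∈ G ↔ t < ∑ j, b j * Real.cos (φ j + ∑ c ∈ A, θ j c)) :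
    SectionsVC (2 * s + 1) B U G := by
  classical
  refine sections_of_rank thin_pos (2 * s + 1) B U G
    (fun A => ∑ j, b j * Real.cos (φ j + ∑ c ∈ A, θ j c) - t)
    (fun A => by rw [hG, sub_pos]) fun ρ hρ => ?_
  refine ⟨Option (Fin s × Bool), inferInstance,
    fun x X => match x with
      | none => 1
      | some (j, true) => b j * Real.cos (φ j + ∑ c ∈ X, θ j c)
      | some (j, false) => - (b j * Real.sin (φ j + ∑ c ∈ X, θ j c)),
    fun x Y => match x with
      | none => -t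
      | some (j, true) => Real.cos (∑ c ∈ Y ∪ ρ, θ j c)
      | some (j, false) => Real.sin (∑ c ∈ Y ∪ ρ, θ j c), ?_, fun X hX Y hY => ?_⟩
  · rw [Fintype.card_option, Fintype.card_prod, Fintype.card_fin, Fintype.card_bool]
    omega
  · rw [Fintype.sum_option, Fintype.sum_prod_type]
    simp only [Fintype.sum_bool, one_mul]
    have hdis : Disjoint X (Y ∪ ρ) := by
      rw [Finset.disjoint_left]
      intro c hc hc'
      rcases mem_union.1 hc' with h | h
      · exact (mem_sdiff.1 (hY h)).2 (hX hc)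
      · exact Finset.disjoint_left.1 hρ h (hBU (hX hc))
    have hj : ∀ j, b j * Real.cos (φ j + ∑ c ∈ X ∪ Y ∪ ρ, θ j c) =
        b j * Real.cos (φ j + ∑ c ∈ X, θ j c) * Real.cos (∑ c ∈ Y ∪ ρ, θ j c) +
          -(b j * Real.sin (φ j + ∑ c ∈ X, θ j c)) * Real.sin (∑ c ∈ Y ∪ ρ, θ j c) := by
      intro j
      rw [union_assoc, sum_union hdis, ← add_assoc, Real.cos_add]
      ring
    rw [sum_congr rfl fun j _ => hj j]
    ring

/-- **Boolean combinations of superlevel sets of trigonometric polynomials.** -/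
theorem trig_main (d : ℕ) (hd : 1 ≤ d) (n : ℕ) (τ : ℝ) (hτ0 : 0 ≤ τ)
    (hτ : ∀ T : Finset (Finset (Fin d → Fin n)), τ * 2 ^ (n ^ d) < #T → Good T)
    (s r : ℕ) (ε : ℝ) (hε : 0 < ε) :
    ∃ N₀ : ℕ, ∀ N : ℕ, N₀ ≤ N →
      ∀ (G : Fin r → Finset (Finset (Fin d → Fin N))) (g : (Fin r → Bool) → Bool)
        (F S : Finset (Finset (Fin d → Fin N))) (b φ : Fin r → Fin s → ℝ)
        (θ : Fin r → Fin s → (Fin d → Fin N) → ℝ) (t : Fin r → ℝ),
        (∀ i A, A ∈ G i ↔ t i < ∑ j, b i j * Real.cos (φ i j + ∑ c ∈ A, θ i j c)) →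
        (∀ A, A ∈ F ↔ g (fun i => decide (A ∈ G i)) = true) → S ⊆ F → ¬ Good S →
        (#S : ℝ) ≤ τ * #F + ε * 2 ^ (N ^ d) := by
  classical
  obtain ⟨l, M, hmain⟩ := main d hd n τ hτ0 hτ (2 * s + 1) r ε hε
  refine ⟨M * l, fun N hKN G g F S b φ θ t hG hF hSF hgood => ?_⟩
  refine hmain N (fun k => univ.image (coord (Equiv.refl _) hKN k)) (fun k => ?_)
    (fun j k hjk => ?_) G g F S (fun i k => ?_) hF hSF hgood
  · rw [card_image_of_injective _ fun x y hxy => (coord_inj (Equiv.refl _) hKN hxy).2, card_univ,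
      Fintype.card_fin]
  · rw [Finset.disjoint_left]
    intro x hx hx'
    obtain ⟨y, -, rfl⟩ := mem_image.1 hx
    obtain ⟨y', -, hy'⟩ := mem_image.1 hx'
    exact hjk (coord_inj (Equiv.refl _) hKN hy').1.symm
  · exact sections_of_trig s _ _
      (subset_biUnion_of_mem (fun k => cube d (univ.image (coord (Equiv.refl _) hKN k)))
        (mem_univ k)) (G i) (b i) (φ i) (θ i) (t i) (hG i)

end Pool.Agent.H700.VB
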